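import Pool.Agent.W921.VP.DefsC

/-!
# VP-QU
-/

set_option autoImplicit false

namespace Pool.Agent.W253.VP

open FirstOrder Set Pool.Agent.W921.VP
open FirstOrder.Language (Theory BoundedFormula)

section

variable {L : FirstOrder.Language.{0, 0}}

theorem term_eq (hL : L.IsRelational) {M N : Type} (S : L.Structure M) (S' : L.Structure N)
    (e : M ≃ N) {m : ℕ} (t : L.Term (Empty ⊕ Fin m)) (a : Fin m → M) :
    e (@Language.Term.realize L M S _ (Sum.elim Empty.elim a) t) =
      @Language.Term.realize L N S' _ (Sum.elim Empty.elim (fun i => e (a i))) t := by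
  cases t with
  | var x =>
    cases x with
    | inl x => exact x.elim
    | inr i => rfl
  | func f ts => exact (hL _).elim f

theorem snoc_eq {M N : Type} (e : M → N) {m : ℕ} (a : Fin m → M) (x : M) :
    (Fin.snoc (fun i => e (a i)) (e x) : Fin (m + 1) → N) =
      fun i => e ((Fin.snoc a x : Fin (m + 1) → M) i) := by
  funext i
  refine Fin.lastCases ?_ (fun i => ?_) i
  · simp
  · simp

theorem exists_syms (hL : L.IsRelational) {m : ℕ} (φ : L.BoundedFormula Empty m) :
    ∃ F : Finset (Sym L), ∀ (M N : Type) (S : L.Structure M) (S' : L.Structure N) (e : M ≃ N),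
      FIso S S' F e → ∀ a : Fin m → M,
        (@BoundedFormula.Realize L M S Empty m φ Empty.elim a ↔
          @BoundedFormula.Realize L N S' Empty m φ Empty.elim (fun i => e (a i))) := by
  classical
  induction φ with
  | falsum => exact ⟨∅, fun M N S S' e _ a => Iff.rfl⟩
  | equal t₁ t₂ =>
    refine ⟨∅, fun M N S S' e _ a => ?_⟩
    show @Language.Term.realize L M S _ (Sum.elim Empty.elim a) t₁ =
      @Language.Term.realize L M S _ (Sum.elim Empty.elim a) t₂ ↔
      @Language.Term.realize L N S' _ (Sum.elim Empty.elim (fun i => e (a i))) t₁ =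
      @Language.Term.realize L N S' _ (Sum.elim Empty.elim (fun i => e (a i))) t₂
    rw [← term_eq hL S S' e t₁ a, ← term_eq hL S S' e t₂ a]
    exact e.injective.eq_iff.symm
  | @rel m l R ts =>
    refine ⟨{⟨l, R⟩}, fun M N S S' e he a => ?_⟩
    have h1 := he ⟨l, R⟩ (Finset.mem_singleton_self _)
      (fun i => @Language.Term.realize L M S _ (Sum.elim Empty.elim a) (ts i))
    have h2 : (fun i => e (@Language.Term.realize L M S _ (Sum.elim Empty.elim a) (ts i))) =
        fun i => @Language.Term.realize L N S' _ (Sum.elim Empty.elim (fun i => e (a i))) (ts i) :=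
      funext fun i => term_eq hL S S' e (ts i) a
    rw [h2] at h1
    exact h1
  | imp φ ψ ih1 ih2 =>
    obtain ⟨F1, h1⟩ := ih1
    obtain ⟨F2, h2⟩ := ih2
    refine ⟨F1 ∪ F2, fun M N S S' e he a => ?_⟩
    have e1 := h1 M N S S' e (fun R hR => he R (Finset.mem_union_left _ hR)) a
    have e2 := h2 M N S S' e (fun R hR => he R (Finset.mem_union_right _ hR)) a
    show (@BoundedFormula.Realize L M S Empty _ φ Empty.elim a →
      @BoundedFormula.Realize L M S Empty _ ψ Empty.elim a) ↔
      (@BoundedFormula.Realize L N S' Empty _ φ Empty.elim (fun i => e (a i)) →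
      @BoundedFormula.Realize L N S' Empty _ ψ Empty.elim (fun i => e (a i)))
    rw [e1, e2]
  | @all m φ ih =>
    obtain ⟨F1, h1⟩ := ih
    refine ⟨F1, fun M N S S' e he a => ?_⟩
    show (∀ x : M, @BoundedFormula.Realize L M S Empty _ φ Empty.elim (Fin.snoc a x)) ↔
      (∀ y : N, @BoundedFormula.Realize L N S' Empty _ φ Empty.elim
        (Fin.snoc (fun i => e (a i)) y))
    refine e.forall_congr fun x => ?_
    rw [snoc_eq]
    exact h1 M N S S' e he _

theorem sw_map {M N : Type} (e : M ≃ N) (x y z : M) : sw (e x) (e y) (e z) = e (sw x y z) := by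
  unfold sw
  by_cases h1 : z = x
  · rw [if_pos h1, if_pos (congrArg e h1)]
  · have h1' : e z ≠ e x := fun h => h1 (e.injective h)
    rw [if_neg h1, if_neg h1']
    by_cases h2 : z = y
    · rw [if_pos h2, if_pos (congrArg e h2)]
    · have h2' : e z ≠ e y := fun h => h2 (e.injective h)
      rw [if_neg h2, if_neg h2']

theorem tw_map {M N : Type} {S : L.Structure M} {S' : L.Structure N} {F : Finset (Sym L)}
    {e : M ≃ N} (he : FIso S S' F e) {R : Sym L} (hR : R ∈ F) {x y : M} (h : Tw S R.2 x y) :
    Tw S' R.2 (e x) (e y) := by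
  intro s
  have h1 : ∀ s0 : Fin R.1 → M, S'.RelMap R.2 (fun i => sw (e x) (e y) (e (s0 i))) ↔
      S'.RelMap R.2 (fun i => e (s0 i)) := by
    intro s0
    have h2 : (fun i => sw (e x) (e y) (e (s0 i))) = fun i => e (sw x y (s0 i)) :=
      funext fun i => sw_map e x y (s0 i)
    rw [h2, ← he R hR, ← he R hR]
    exact h s0
  have h3 := h1 (fun i => e.symm (s i))
  simpa using h3

end

/-- QU -/
theorem task (hs : S_SW) (hf : S_FOT) : S_QU := by
  intro L hL S S' n a a' hS hS' hst i b b' hb hb' hba hba' φ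
  obtain ⟨F, hF⟩ := exists_syms hL φ
  obtain ⟨e, he, heF⟩ := hf L hL S S' n a a' hS hS' hst F
  -- `e b` and `b'` are twins
  have htw : ∀ R ∈ F, Tw S' R.2 (e b) b' := by
    intro R hR
    have h1 : Tw S' R.2 (e b) (e (a i)) := tw_map heF hR (hb R)
    rw [he i] at h1
    have h2 : Tw S' R.2 b' (a' i) := hb' R
    have heq := (hs L ℕ S' R.1 R.2).1
    exact heq.trans h1 (heq.symm h2)
  have hsw : ∀ z, Equiv.swap (e b) b' z = sw (e b) b' z := by
    intro z
    rw [Equiv.swap_apply_def]
    unfold sw
    split_ifs <;> rfl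
  have hF1 : FIso S S' F (e.trans (Equiv.swap (e b) b')) := by
    intro R hR s
    rw [heF R hR s]
    have h1 := htw R hR (fun i => e (s i))
    have h2 : (fun i => (e.trans (Equiv.swap (e b) b')) (s i)) =
        fun i => sw (e b) b' (e (s i)) := by
      funext i
      rw [Equiv.trans_apply, hsw]
    rw [h2]
    exact h1.symm
  have h3 := hF ℕ ℕ S S' (e.trans (Equiv.swap (e b) b')) hF1 (Fin.snoc a b : Fin (n + 1) → ℕ)
  rw [h3]
  have h4 : (fun i => (e.trans (Equiv.swap (e b) b')) ((Fin.snoc a b : Fin (n + 1) → ℕ) i)) =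
      (Fin.snoc a' b' : Fin (n + 1) → ℕ) := by
    rw [← snoc_eq]
    have e1 : (e.trans (Equiv.swap (e b) b')) b = b' := by
      rw [Equiv.trans_apply, Equiv.swap_apply_left]
    have e2 : (fun j => (e.trans (Equiv.swap (e b) b')) (a j)) = a' := by
      funext j
      rw [Equiv.trans_apply, he j]
      refine Equiv.swap_apply_of_ne_of_ne ?_ (hba' j).symm
      intro h5
      rw [← he j] at h5
      exact hba j (e.injective h5).symm
    rw [e1, e2]
  rw [h4]

end Pool.Agent.W253.VP
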